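import Mathlib
import Pool.Agent.V1112.LA.Ultra

/-!
# The sublattices of subspace lattices over division rings are not finitely axiomatizable

For distinct primes `p`, `q` the lattice of submodules of `(ℤ/pq)^3` does not embed in the subspace
lattice of a vector space over a division ring (such an embedding would force `p = q = 0` in the
division ring). A nonprincipal ultraproduct of these lattices for `p, q → ∞` embeds in the lattice
of submodules of `R^3`, where `R` is the ultraproduct of the rings `ℤ/pq`. This `R` contains `ℚ`, so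
that the ultraproduct embeds in the subspace lattice of a vector space over `ℚ`.
-/

set_option autoImplicit false

namespace Pool.Agent.Results.MP_d4b74c_al.NotFinitelyAxiomatizable

open FirstOrder Filter Pool.Agent.V1112.LA

universe u

/-- The lattice `L` belongs to the class `K`: there are a division ring `D`, a `D`-vector space `V`
and an injective map from `L` to the lattice of subspaces of `V` preserving `∧` and `∨`. -/
def InK (L : Type u) [Lattice L] : Prop :=
  ∃ (D : Type u) (_ : DivisionRing D) (V : Type u) (_ : AddCommGroup V) (_ : Module D V)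
    (f : L → Submodule D V), Function.Injective f ∧ (∀ x y, f (x ⊓ y) = f x ⊓ f y) ∧
      ∀ x y, f (x ⊔ y) = f x ⊔ f y

lemma inK_of_algebra {L : Type u} [Lattice L] (D R M : Type u) [Field D] [CommRing R]
    [Algebra D R] [AddCommGroup M] [Module R M] [Module D M] [IsScalarTower D R M]
    (f : L → Submodule R M) (hf : Function.Injective f) (h1 : ∀ x y, f (x ⊓ y) = f x ⊓ f y)
    (h2 : ∀ x y, f (x ⊔ y) = f x ⊔ f y) : InK L := by
  refine ⟨D, inferInstance, M, inferInstance, inferInstance,
    fun x => (f x).restrictScalars D, ?_, ?_, ?_⟩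
  · intro x y h
    exact hf (Submodule.restrictScalars_injective D R M h)
  · intro x y
    show (f (x ⊓ y)).restrictScalars D = _
    rw [h1]
    exact map_inf (Submodule.restrictScalarsLatticeHom D R M) (f x) (f y)
  · intro x y
    show (f (x ⊔ y)).restrictScalars D = _
    rw [h2]
    exact map_sup (Submodule.restrictScalarsLatticeHom D R M) (f x) (f y)

/-- a prime larger than `n` -/
noncomputable def pp (n : ℕ) : ℕ := (Nat.exists_infinite_primes (n + 1)).choose

lemma pp_lt (n : ℕ) : n < pp n := (Nat.exists_infinite_primes (n + 1)).choose_spec.1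

lemma pp_prime (n : ℕ) : (pp n).Prime := (Nat.exists_infinite_primes (n + 1)).choose_spec.2

/-- a prime larger than `pp n` -/
noncomputable def qq (n : ℕ) : ℕ := pp (pp n)

lemma pp_lt_qq (n : ℕ) : pp n < qq n := pp_lt _

lemma qq_prime (n : ℕ) : (qq n).Prime := pp_prime _

/-- the ring `ℤ/pq` -/
abbrev WW (n : ℕ) : Type u := ULift.{u} (ZMod (pp n * qq n))

lemma not_inK (n : ℕ) : ¬ InK (Submodule (WW.{u} n) (Fin 3 → WW.{u} n)) := by
  rintro ⟨D, i1, V, i2, i3, f, hf, h1, h2⟩
  have key : ∀ m : ℕ, ((m : ℕ) : WW.{u} n) = 0 ↔ pp n * qq n ∣ m := by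
    intro m
    rw [← ZMod.natCast_eq_zero_iff, ← ULift.down_inj]
    rfl
  have hp := pp_prime n
  have hq := qq_prime n
  refine not_embeds (S := WW.{u} n) (pp n) (qq n)
    ((Nat.coprime_primes hp hq).2 (pp_lt_qq n).ne) ?_ ?_ ?_
    { toFun := f, map_sup' := h2, map_inf' := h1 } hf
  · rw [Ne, key]
    intro h
    have h3 := Nat.le_of_dvd hp.pos h
    have h4 := hq.two_le
    have h5 := hp.pos
    nlinarith
  · rw [Ne, key]
    intro h
    have h3 := Nat.le_of_dvd hq.pos h
    have h4 := hp.two_le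
    have h5 := hq.pos
    nlinarith
  · rw [← Nat.cast_mul, key]

lemma isUnit_nat (m : ℕ) (hm : m ≠ 0) :
    IsUnit ((m : ℕ) : RR WW.{u} (hyperfilter ℕ)) := by
  refine IsUnit.of_mul_eq_one
    (qmk WW.{u} (hyperfilter ℕ) (fun n => ULift.up ((m : ZMod (pp n * qq n))⁻¹))) ?_
  rw [← map_natCast (qmk WW.{u} (hyperfilter ℕ)) m, ← map_mul,
    ← map_one (qmk WW.{u} (hyperfilter ℕ)), qmk_eq]
  have h : ∀ᶠ n in ((hyperfilter ℕ : Ultrafilter ℕ) : Filter ℕ), m < n :=
    Nat.hyperfilter_le_atTop (eventually_gt_atTop m)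
  filter_upwards [h] with n hn
  have h1 : m < pp n := lt_trans hn (pp_lt n)
  have h2 : m < qq n := lt_trans h1 (pp_lt_qq n)
  have h3 : Nat.Coprime m (pp n * qq n) := by
    apply Nat.Coprime.mul_right
    · exact (((pp_prime n).coprime_iff_not_dvd).2
        (Nat.not_dvd_of_pos_of_lt (Nat.pos_of_ne_zero hm) h1)).symm
    · exact (((qq_prime n).coprime_iff_not_dvd).2
        (Nat.not_dvd_of_pos_of_lt (Nat.pos_of_ne_zero hm) h2)).symm
  have h4 := ZMod.coe_mul_inv_eq_one m h3
  exact ULift.down_injective h4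

lemma isUnit_int (k : ℤ) (hk : k ≠ 0) : IsUnit ((k : ℤ) : RR WW.{u} (hyperfilter ℕ)) := by
  have h := isUnit_nat.{u} k.natAbs (Int.natAbs_ne_zero.2 hk)
  rcases Int.natAbs_eq k with h1 | h1
  · rw [h1, Int.cast_natCast]
    exact h
  · rw [h1, Int.cast_neg, Int.cast_natCast]
    exact h.neg

/-- the map from the rationals to the ultraproduct -/
noncomputable def iota : ℚ →+* RR WW.{u} (hyperfilter ℕ) :=
  IsLocalization.lift (M := nonZeroDivisors ℤ) (S := ℚ)
    (g := Int.castRingHom (RR WW.{u} (hyperfilter ℕ)))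
    (fun y => isUnit_int _ (nonZeroDivisors.ne_zero y.2))

/-- the map from the lifted rationals to the ultraproduct -/
noncomputable def iota' : ULift.{u} ℚ →+* RR WW.{u} (hyperfilter ℕ) :=
  iota.comp (ULift.ringEquiv (R := ℚ)).toRingHom

lemma ultra_inK : @InK (MM WW.{u} (hyperfilter ℕ)) (mLat (hyperfilter ℕ)) := by
  let _ := mLat (W := WW.{u}) (hyperfilter ℕ)
  let _ : Algebra (ULift.{u} ℚ) (RR WW.{u} (hyperfilter ℕ)) := iota'.toAlgebra
  exact inK_of_algebra (ULift.{u} ℚ) (RR WW.{u} (hyperfilter ℕ))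
    (Fin 3 → RR WW.{u} (hyperfilter ℕ)) (GG (hyperfilter ℕ)) (GG_inj _) (GG_inf _) (GG_sup _)

/-- The class `K` is not specified by a finite set of first-order sentences in the language of
lattices. -/
theorem result : ¬ ∃ S : Set LL.Sentence, S.Finite ∧
    ∀ (L : Type u) [Lattice L] [Nonempty L], InK L ↔ ∀ φ ∈ S, L ⊨ φ := by
  rintro ⟨S, hS, h⟩
  have h1 : ∀ φ ∈ S, ∀ᶠ n in ((hyperfilter ℕ : Ultrafilter ℕ) : Filter ℕ),
      (Submodule (WW.{u} n) (Fin 3 → WW.{u} n)) ⊨ φ := by
    intro φ hφ
    rw [← los (W := WW.{u}) (hyperfilter ℕ) φ]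
    have : Nonempty (MM WW.{u} (hyperfilter ℕ)) := ⟨mkM (hyperfilter ℕ) fun _ => ⊥⟩
    exact (@h (MM WW.{u} (hyperfilter ℕ)) (mLat (hyperfilter ℕ)) inferInstance).1 ultra_inK φ hφ
  obtain ⟨n, hn⟩ := ((eventually_all_finite hS).2 h1).exists
  exact not_inK n ((h _).2 hn)

end Pool.Agent.Results.MP_d4b74c_al.NotFinitelyAxiomatizable
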